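import Pool.Agent.H912R3.Eq.Fin2

/-!
# Ehrhart's volume inequality for all lattices, with its equality case

For every `d ≥ 1`, every lattice `L = A ℤ^d` of `ℝ^d` and every convex body `K` with centroid `0`
whose interior contains no lattice point except `0`,
`vol K ≤ (d+1)^d / d! * det L`, and equality holds exactly for the simplices
`A U {y : y_i ≥ -1, y_1 + ... + y_d ≤ 1}` with `U` an integer matrix of determinant `1` or `-1`.
-/

set_option autoImplicit false

open MeasureTheory Set

namespace Pool.Agent.Results.MP_4c844b_co.EhrhartAllLattices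

/-- the lattice `A ℤ^d` -/
def lattice {d : ℕ} (A : Matrix (Fin d) (Fin d) ℝ) : Set (Fin d → ℝ) :=
  {x | ∃ z : Fin d → ℤ, x = A.mulVec fun i => (z i : ℝ)}

/-- the centroid `(1 / vol K) ∫_K x dx` -/
noncomputable def centroid {d : ℕ} (K : Set (Fin d → ℝ)) : Fin d → ℝ :=
  (volume K).toReal⁻¹ • ∫ x in K, x

/-- the simplex `{y : y_i ≥ -1 for all i, y_1 + ... + y_d ≤ 1}`, a translate of `(d+1)` times the
standard simplex, with centroid `0` -/
def simplex (d : ℕ) : Set (Fin d → ℝ) := {y | (∀ i, -1 ≤ y i) ∧ ∑ i, y i ≤ 1}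

open Pool.Agent.H912R3.Ehr in
lemma mem_simplex {d : ℕ} (y : Fin d → ℝ) :
    y ∈ simplex d ↔ (fun i => y i + 1) ∈ Tx d (d + 1) := by
  have hs : ∑ i, (y i + 1) = ∑ i, y i + d := by
    rw [Finset.sum_add_distrib]
    simp
  constructor
  · rintro ⟨h1, h2⟩
    refine ⟨fun i => ?_, ?_⟩
    · have := h1 i
      show 0 ≤ y i + 1
      linarith
    · show ∑ i, (y i + 1) ≤ (d : ℝ) + 1
      rw [hs]; linarith
  · rintro ⟨h1, h2⟩
    refine ⟨fun i => ?_, ?_⟩
    · have : 0 ≤ y i + 1 := h1 i
      linarith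
    · have : ∑ i, (y i + 1) ≤ (d : ℝ) + 1 := h2
      rw [hs] at this; linarith

open Pool.Agent.H912R3.Ehr in
theorem result (d : ℕ) (hd : 1 ≤ d) (A : Matrix (Fin d) (Fin d) ℝ) (hA : A.det ≠ 0)
    (K : Set (Fin d → ℝ)) (hK : IsCompact K) (hKc : Convex ℝ K) (hne : (interior K).Nonempty)
    (hcen : centroid K = 0) (hL : interior K ∩ lattice A = {0}) :
    (volume K).toReal ≤ ((d : ℝ) + 1) ^ d / d.factorial * |A.det| ∧
    ((volume K).toReal = ((d : ℝ) + 1) ^ d / d.factorial * |A.det| ↔
      ∃ U : Matrix (Fin d) (Fin d) ℤ, IsUnit U.det ∧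
        K = (fun y : Fin d → ℝ => A.mulVec ((U.map (Int.cast : ℤ → ℝ)).mulVec y)) ''
          simplex d) := by
  have hAu : IsUnit A.det := isUnit_iff_ne_zero.2 hA
  have hAA : A⁻¹ * A = 1 := Matrix.nonsing_inv_mul A hAu
  have hAA' : A * A⁻¹ = 1 := Matrix.mul_nonsing_inv A hAu
  have hinv : ∀ x : Fin d → ℝ, A⁻¹.mulVec (A.mulVec x) = x := by
    intro x
    rw [Matrix.mulVec_mulVec, hAA, Matrix.one_mulVec]
  have hinv' : ∀ x : Fin d → ℝ, A.mulVec (A⁻¹.mulVec x) = x := by
    intro x
    rw [Matrix.mulVec_mulVec, hAA', Matrix.one_mulVec]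
  set e : (Fin d → ℝ) →ₗ[ℝ] (Fin d → ℝ) := Matrix.toLin' A with he
  have hex : ∀ x, e x = A.mulVec x := fun x => by rw [he, Matrix.toLin'_apply]
  have hdet : LinearMap.det e = A.det := by rw [he, LinearMap.det_toLin']
  have hec : Continuous e := LinearMap.continuous_of_finiteDimensional _
  have habs : 0 < |A.det| := abs_pos.2 hA
  set K' : Set (Fin d → ℝ) := e ⁻¹' K with hK'
  have hKimg : e '' K' = K := by
    apply Subset.antisymm
    · rintro _ ⟨x, hx, rfl⟩
      exact hx
    · intro x hx
      refine ⟨A⁻¹.mulVec x, ?_, ?_⟩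
      · show e (A⁻¹.mulVec x) ∈ K
        rw [hex, hinv']
        exact hx
      · rw [hex, hinv']
  have hK'img : K' = (fun x => A⁻¹.mulVec x) '' K := by
    apply Subset.antisymm
    · intro x hx
      refine ⟨e x, hx, ?_⟩
      show A⁻¹.mulVec (e x) = x
      rw [hex, hinv]
    · rintro _ ⟨x, hx, rfl⟩
      show e (A⁻¹.mulVec x) ∈ K
      rw [hex, hinv']
      exact hx
  have hcompact : IsCompact K' := by
    rw [hK'img]
    refine hK.image ?_
    exact Continuous.matrix_mulVec continuous_const continuous_id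
  have hconv : Convex ℝ K' := hKc.linear_preimage e
  have h0K : (0 : Fin d → ℝ) ∈ interior K := by
    have : (0 : Fin d → ℝ) ∈ interior K ∩ lattice A := by rw [hL]; rfl
    exact this.1
  have hopen : e ⁻¹' interior K ⊆ interior K' :=
    interior_maximal (preimage_mono interior_subset) (isOpen_interior.preimage hec)
  have h0 : (0 : Fin d → ℝ) ∈ interior K' := by
    apply hopen
    show e 0 ∈ interior K
    rw [map_zero]
    exact h0K
  have hint : ∀ x ∈ interior K', e x ∈ interior K := by
    intro x hx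
    have h1 : e '' interior K' ⊆ K := by
      rw [← hKimg]
      exact image_mono interior_subset
    have h2 : IsOpen (e '' interior K') := by
      have h3 : e '' interior K' = (fun x => A⁻¹.mulVec x) ⁻¹' interior K' := by
        apply Subset.antisymm
        · rintro _ ⟨y, hy, rfl⟩
          show A⁻¹.mulVec (e y) ∈ interior K'
          rw [hex, hinv]
          exact hy
        · intro y hy
          refine ⟨A⁻¹.mulVec y, hy, ?_⟩
          rw [hex, hinv']
      rw [h3]
      exact isOpen_interior.preimage (Continuous.matrix_mulVec continuous_const continuous_id)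
    exact interior_maximal h1 h2 ⟨x, hx, rfl⟩
  have hLz : ∀ z : Fin d → ℤ, (fun i => (z i : ℝ)) ∈ interior K' → z = 0 := by
    intro z hz
    have h1 : e (fun i => (z i : ℝ)) ∈ interior K ∩ lattice A :=
      ⟨hint _ hz, z, hex _⟩
    rw [hL] at h1
    have h2 : A.mulVec (fun i => (z i : ℝ)) = 0 := by rw [← hex]; exact h1
    have h3 : (fun i => (z i : ℝ)) = 0 := by
      rw [← hinv (fun i => (z i : ℝ)), h2, Matrix.mulVec_zero]
    funext i
    have := congrFun h3 i
    simpa using this
  -- volume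
  have hvol : volume.real K = |A.det| * volume.real K' := by
    rw [← hKimg, measureReal_def, measureReal_def, Measure.addHaar_image_linearMap, hdet,
      ENNReal.toReal_mul, ENNReal.toReal_ofReal (abs_nonneg _)]
  have hVpos : 0 < (volume K).toReal := by
    have h1 : 0 < volume K :=
      (isOpen_interior.measure_pos volume hne).trans_le (measure_mono interior_subset)
    exact ENNReal.toReal_pos h1.ne' hK.measure_lt_top.ne
  -- centroid
  have hI : (∫ x in K, x) = 0 := by
    rcases smul_eq_zero.1 hcen with h | h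
    · exact absurd h (inv_ne_zero hVpos.ne')
    · exact h
  have hz' : (∫ x in K', x) = 0 := by
    have hmeas : MeasurableSet K' := hcompact.measurableSet
    let E : (Fin d → ℝ) →L[ℝ] (Fin d → ℝ) := ⟨e, hec⟩
    have hinj : InjOn e K' := by
      intro x _ y _ hxy
      rw [← hinv x, ← hinv y, ← hex, ← hex, hxy]
    have h1 := integral_image_eq_integral_abs_det_fderiv_smul volume hmeas
      (f := e) (f' := fun _ => E) (fun x _ => E.hasFDerivAt.hasFDerivWithinAt) hinj
      (fun x => x)
    rw [hKimg, hI] at h1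
    have h2 : E.det = A.det := hdet
    rw [h2, integral_smul] at h1
    have h3 : (∫ x in K', e x) = 0 := by
      rcases smul_eq_zero.1 h1.symm with h | h
      · exact absurd h habs.ne'
      · exact h
    have hintg : Integrable (fun x : Fin d → ℝ => x) (volume.restrict K') :=
      (continuous_id.continuousOn).integrableOn_compact hcompact
    have h4 : (∫ x in K', E x) = E (∫ x in K', x) := E.integral_comp_comm hintg
    have h5 : E (∫ x in K', x) = 0 := by
      rw [← h4]; exact h3
    have h6 : A.mulVec (∫ x in K', x) = 0 := by rw [← hex]; exact h5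
    rw [← hinv (∫ x in K', x), h6, Matrix.mulVec_zero]
  have hz : ∀ i, ∫ x in K', x i = 0 := by
    intro i
    rw [← eval_int hcompact, hz']
    rfl
  have hbound := ehrhart_int hd hcompact hconv hz h0 hLz
  have hmap : ∀ (M : Matrix (Fin d) (Fin d) ℤ) (x : Fin d → ℝ) (i : Fin d),
      (M.map (Int.cast : ℤ → ℝ)).mulVec x i = ∑ j, (M i j : ℝ) * x j := fun M x i => rfl
  have hmm : ∀ (M N : Matrix (Fin d) (Fin d) ℤ), M * N = 1 → ∀ x : Fin d → ℝ,
      (M.map (Int.cast : ℤ → ℝ)).mulVec ((N.map (Int.cast : ℤ → ℝ)).mulVec x) = x := by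
    intro M N h x
    rw [Matrix.mulVec_mulVec]
    have h1 : M.map (Int.cast : ℤ → ℝ) * N.map (Int.cast : ℤ → ℝ) = 1 := by
      have h2 := congrArg (fun P : Matrix (Fin d) (Fin d) ℤ => P.map (Int.castRingHom ℝ)) h
      simp only [Matrix.map_mul] at h2
      have h3 : (1 : Matrix (Fin d) (Fin d) ℤ).map (Int.castRingHom ℝ) = 1 :=
        Matrix.map_one _ (map_zero _) (map_one _)
      rw [h3] at h2
      exact h2
    rw [h1, Matrix.one_mulVec]
  have hVr : (volume K).toReal = |A.det| * volume.real K' := hvol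
  refine ⟨?_, fun h => ?_, ?_⟩
  · rw [hVr, mul_comm]
    exact mul_le_mul_of_nonneg_right hbound habs.le
  · have hV' : volume.real K' = ((d : ℝ) + 1) ^ d / d.factorial := by
      rw [hVr, mul_comm] at h
      exact mul_right_cancel₀ habs.ne' h
    obtain ⟨M, hM, hKM⟩ := core_eq hd hcompact hconv hz h0 hLz hV'
    have hM1 : M⁻¹ * M = 1 := Matrix.nonsing_inv_mul M hM
    have hM2 : M * M⁻¹ = 1 := Matrix.mul_nonsing_inv M hM
    refine ⟨M⁻¹, ?_, ?_⟩
    · have h1 : (M⁻¹).det * M.det = 1 := by rw [← Matrix.det_mul, hM1, Matrix.det_one]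
      exact IsUnit.of_mul_eq_one _ h1
    · rw [← hKimg, hKM]
      apply Subset.antisymm
      · rintro _ ⟨x, hx, rfl⟩
        refine ⟨(M.map (Int.cast : ℤ → ℝ)).mulVec x, ?_, ?_⟩
        · rw [mem_simplex]
          exact hx
        · show A.mulVec _ = _
          rw [hmm _ _ hM1, hex]
      · rintro _ ⟨y, hy, rfl⟩
        refine ⟨(M⁻¹.map (Int.cast : ℤ → ℝ)).mulVec y, ?_, hex _⟩
        show (fun i => ∑ j, (M i j : ℝ) * ((M⁻¹.map (Int.cast : ℤ → ℝ)).mulVec y) j + 1) ∈
          Tx d (d + 1)
        have h1 : (fun i => ∑ j, (M i j : ℝ) * ((M⁻¹.map (Int.cast : ℤ → ℝ)).mulVec y) j + 1) =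
            fun i => y i + 1 := by
          funext i
          rw [← hmap, hmm _ _ hM2]
        rw [h1, ← mem_simplex]
        exact hy
  · rintro ⟨U, hU, hKU⟩
    have hU1 : U⁻¹ * U = 1 := Matrix.nonsing_inv_mul U hU
    have hU2 : U * U⁻¹ = 1 := Matrix.mul_nonsing_inv U hU
    have hdetU : IsUnit (U⁻¹).det := by
      have h1 : (U⁻¹).det * U.det = 1 := by rw [← Matrix.det_mul, hU1, Matrix.det_one]
      exact IsUnit.of_mul_eq_one _ h1
    have hK'U : K' = (fun y : Fin d → ℝ => (U.map (Int.cast : ℤ → ℝ)).mulVec y) '' simplex d := by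
      rw [hK'img, hKU, image_image]
      apply image_congr
      intro y _
      exact hinv _
    have himg : (fun x : Fin d → ℝ => fun i => ∑ j, ((U⁻¹) i j : ℝ) * x j +
        (((fun _ => 1 : Fin d → ℤ) i : ℤ) : ℝ)) '' K' = Tx d (d + 1) := by
      rw [hK'U, image_image]
      have hfun : ∀ y : Fin d → ℝ, (fun i => ∑ j, ((U⁻¹) i j : ℝ) *
          ((U.map (Int.cast : ℤ → ℝ)).mulVec y) j + (((fun _ => 1 : Fin d → ℤ) i : ℤ) : ℝ)) =
          fun i => y i + 1 := by
        intro y
        funext i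
        rw [← hmap, hmm _ _ hU1]
        simp
      apply Subset.antisymm
      · rintro _ ⟨y, hy, rfl⟩
        show (fun i => ∑ j, ((U⁻¹) i j : ℝ) *
          ((U.map (Int.cast : ℤ → ℝ)).mulVec y) j + (((fun _ => 1 : Fin d → ℤ) i : ℤ) : ℝ)) ∈ _
        rw [hfun, ← mem_simplex]
        exact hy
      · intro w hw
        refine ⟨fun i => w i - 1, ?_, ?_⟩
        · rw [mem_simplex]
          simpa using hw
        · show (fun i => ∑ j, ((U⁻¹) i j : ℝ) *
            ((U.map (Int.cast : ℤ → ℝ)).mulVec fun i => w i - 1) j +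
              (((fun _ => 1 : Fin d → ℤ) i : ℤ) : ℝ)) = w
          rw [hfun]
          funext i
          simp
    have h1 := (converse hcompact hLz hdetU himg).2
    rw [hVr, h1, mul_comm]

end Pool.Agent.Results.MP_4c844b_co.EhrhartAllLattices
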